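import Mathlib

set_option autoImplicit false

/-!
# Houghton's group `H₂`: the permutations of `ℤ` that are a translation outside a finite set
-/

namespace Pool.Agent.Helper25.HTwo

open Equiv Equiv.Perm

/-- The group of all permutations `x` of `ℤ` for which there is a `τ` with `x n = n + τ` for all
but finitely many `n`. -/
def H2 : Subgroup (Equiv.Perm ℤ) where
  carrier := {x | ∃ τ : ℤ, {n : ℤ | x n ≠ n + τ}.Finite}
  mul_mem' := by
    rintro x y ⟨a, ha⟩ ⟨b, hb⟩
    refine ⟨b + a, (hb.union (ha.preimage (f := fun n => n + b)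
      (add_left_injective b).injOn)).subset ?_⟩
    intro n hn
    by_contra h
    simp only [Set.mem_union, Set.mem_ofPred_eq, Set.mem_preimage, not_or, not_not] at h
    apply hn
    rw [Equiv.Perm.mul_apply, h.1, h.2, add_assoc]
  one_mem' := ⟨0, by simp⟩
  inv_mem' := by
    rintro x ⟨a, ha⟩
    refine ⟨-a, (ha.image x).subset ?_⟩
    intro n hn
    refine ⟨x⁻¹ n, ?_, by simp⟩
    intro h
    apply hn
    have h1 : x (x⁻¹ n) = n := x.apply_symm_apply n
    omega

theorem tau_exists (x : H2) : ∃ τ : ℤ, {n : ℤ | x.1 n ≠ n + τ}.Finite := x.2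

/-- the translation number -/
noncomputable def tau (x : H2) : ℤ := Classical.choose (tau_exists x)

theorem tau_spec (x : H2) : {n : ℤ | x.1 n ≠ n + tau x}.Finite :=
  Classical.choose_spec (tau_exists x)

theorem tau_eq {x : H2} {a : ℤ} (h : {n : ℤ | x.1 n ≠ n + a}.Finite) : tau x = a := by
  obtain ⟨n, hn⟩ := ((tau_spec x).union h).exists_notMem
  simp only [Set.mem_union, Set.mem_ofPred_eq, not_or, not_not] at hn
  omega

theorem tau_one : tau 1 = 0 := tau_eq (by simp)

theorem tau_mul (x y : H2) : tau (x * y) = tau x + tau y := by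
  apply tau_eq
  refine ((tau_spec y).union ((tau_spec x).preimage (f := fun n => n + tau y)
      (add_left_injective _).injOn)).subset ?_
  intro n hn
  by_contra h
  simp only [Set.mem_union, Set.mem_ofPred_eq, Set.mem_preimage, not_or, not_not] at h
  apply hn
  change x.1 (y.1 n) = _
  rw [h.1, h.2]
  ring

/-- elements of translation number zero have finite order -/
theorem finite_order {x : H2} (h : tau x = 0) : ∃ r : ℕ, 0 < r ∧ x ^ r = 1 := by
  have hfin : {n : ℤ | x.1 n ≠ n}.Finite := by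
    have := tau_spec x
    rw [h] at this
    simpa using this
  have hp : ∀ n : ℤ, x.1 n ≠ n ↔ x.1 (x.1 n) ≠ x.1 n := by
    intro n
    rw [not_iff_not]
    exact ⟨fun h => congrArg x.1 h, fun h => x.1.injective h⟩
  haveI : Finite {n : ℤ // x.1 n ≠ n} := hfin
  have h1 : IsOfFinOrder (x.1.subtypePerm (p := fun n => x.1 n ≠ n) (fun n => (hp n).symm)) :=
    isOfFinOrder_of_finite _
  obtain ⟨r, hr, hr2⟩ := isOfFinOrder_iff_pow_eq_one.1 h1
  refine ⟨r, hr, ?_⟩
  apply Subtype.ext
  ext n
  rw [Subgroup.coe_pow, Subgroup.coe_one, Equiv.Perm.one_apply]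
  by_cases hn : x.1 n = n
  · rw [← Equiv.Perm.iterate_eq_pow]
    exact Function.iterate_fixed hn r
  · have h2 := congrArg (fun p : Equiv.Perm {n : ℤ // x.1 n ≠ n} => ((p ⟨n, hn⟩ : _) : ℤ)) hr2
    simpa [Equiv.Perm.subtypePerm_pow] using h2

/-! ## generators -/

theorem gen_perm (Y : Set ℤ) (u : Equiv.Perm ℤ) (y : ℤ) (hu : {n : ℤ | u n ≠ n + 1}.Finite)
    (hY : ∀ z, z ∉ Y → u z = z) (huy : u y ≠ y) (htr : ∀ z ∈ Y, ∃ k : ℤ, (u ^ k) y = z)
    (x : Equiv.Perm ℤ) (hx : ∃ τ : ℤ, {n : ℤ | x n ≠ n + τ}.Finite)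
    (hxY : ∀ z, z ∉ Y → x z = z) :
    x ∈ Subgroup.closure ({u, Equiv.swap y (u y)} : Set (Equiv.Perm ℤ)) := by
  set U : H2 := ⟨u, 1, hu⟩ with hU
  obtain ⟨τ, hτ⟩ := hx
  set X : H2 := ⟨x, τ, hτ⟩ with hX
  have htU : tau U = 1 := tau_eq hu
  have htX : tau X = τ := tau_eq hτ
  have hpow : ∀ k : ℤ, tau (U ^ k) = k := by
    intro k
    induction k using Int.induction_on with
    | zero => simp [tau_one]
    | succ k ih => rw [zpow_add_one, tau_mul, ih, htU]
    | pred k ih =>
      have h1 : tau (U ^ (-(k : ℤ) - 1)) + tau U = tau (U ^ (-(k : ℤ))) := by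
        rw [← tau_mul, ← zpow_add_one]
        congr 2
        ring
      omega
  set f : Equiv.Perm ℤ := u ^ (-τ) * x with hf
  set S : Set (Equiv.Perm ℤ) := Set.range fun k : ℤ => Equiv.swap ((u ^ k) y) ((u ^ (k + 1)) y)
    with hS
  have hne : ∀ k : ℤ, (u ^ k) y ≠ (u ^ (k + 1)) y := by
    intro k h
    rw [zpow_add_one, Equiv.Perm.mul_apply] at h
    exact huy ((u ^ k).injective h).symm
  have hswap : ∀ g ∈ S, g.IsSwap := by
    rintro _ ⟨k, rfl⟩
    exact ⟨_, _, hne k, rfl⟩
  have hle : Subgroup.closure S ≤ Subgroup.closure {u, Equiv.swap y (u y)} := by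
    rw [Subgroup.closure_le]
    rintro _ ⟨k, rfl⟩
    have h1 : Equiv.swap ((u ^ k) y) ((u ^ (k + 1)) y) =
        u ^ k * Equiv.swap y (u y) * (u ^ k)⁻¹ := by
      rw [zpow_add_one, Equiv.Perm.mul_apply, Equiv.swap_apply_apply]
    change Equiv.swap ((u ^ k) y) ((u ^ (k + 1)) y) ∈ _
    rw [h1]
    have h2 : u ∈ Subgroup.closure ({u, Equiv.swap y (u y)} : Set (Equiv.Perm ℤ)) :=
      Subgroup.subset_closure (by simp)
    have h3 : Equiv.swap y (u y) ∈
        Subgroup.closure ({u, Equiv.swap y (u y)} : Set (Equiv.Perm ℤ)) :=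
      Subgroup.subset_closure (by simp)
    exact Subgroup.mul_mem _ (Subgroup.mul_mem _ (Subgroup.zpow_mem _ h2 k) h3)
      (Subgroup.inv_mem _ (Subgroup.zpow_mem _ h2 k))
  have horb : ∀ k : ℤ, MulAction.orbit (Subgroup.closure S) ((u ^ k) y) =
      MulAction.orbit (Subgroup.closure S) y := by
    have step : ∀ k : ℤ, MulAction.orbit (Subgroup.closure S) ((u ^ (k + 1)) y) =
        MulAction.orbit (Subgroup.closure S) ((u ^ k) y) := by
      intro k
      rw [MulAction.orbit_eq_iff]
      refine ⟨⟨Equiv.swap ((u ^ k) y) ((u ^ (k + 1)) y), Subgroup.subset_closure ⟨k, rfl⟩⟩, ?_⟩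
      exact Equiv.swap_apply_left _ _
    intro k
    induction k using Int.induction_on with
    | zero => simp
    | succ k ih => rw [step, ih]
    | pred k ih =>
      rw [← ih, ← step (-(k : ℤ) - 1)]
      congr 3
      ring
  have hupY : ∀ k : ℤ, ∀ z, z ∉ Y → (u ^ k) z = z := by
    intro k z hz
    have h1 : (u ^ k) z = z := by
      have : u z = z := hY z hz
      exact Equiv.Perm.zpow_apply_eq_self_of_apply_eq_self this k
    exact h1
  have hfY : ∀ z, z ∉ Y → f z = z := by
    intro z hz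
    rw [hf, Equiv.Perm.mul_apply, hxY z hz, hupY _ z hz]
  have hfY' : ∀ z, z ∈ Y → f z ∈ Y := by
    intro z hz
    by_contra h
    have h1 := hfY _ h
    have h2 := f.injective h1
    rw [h2] at h
    exact h hz
  have hfS : f ∈ Subgroup.closure S := by
    rw [mem_closure_isSwap hswap]
    constructor
    · have h1 : tau (U ^ (-τ) * X) = 0 := by rw [tau_mul, hpow, htX]; ring
      have h2 := tau_spec (U ^ (-τ) * X)
      rw [h1] at h2
      refine h2.subset ?_
      intro n hn
      simp only [Set.mem_compl_iff, MulAction.mem_fixedBy] at hn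
      intro h3
      apply hn
      rw [add_zero] at h3
      exact h3
    · intro z
      by_cases hz : z ∈ Y
      · obtain ⟨k, hk⟩ := htr z hz
        obtain ⟨l, hl⟩ := htr (f z) (hfY' z hz)
        rw [← hl, ← hk]
        have := MulAction.mem_orbit_self (M := Subgroup.closure S) ((u ^ l) y)
        rw [horb l] at this
        rw [horb k]
        exact this
      · rw [hfY z hz]
        exact MulAction.mem_orbit_self _
  have hx : x = u ^ τ * f := by
    rw [hf, ← mul_assoc, ← zpow_add]
    simp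
  rw [hx]
  exact Subgroup.mul_mem _ (Subgroup.zpow_mem _ (Subgroup.subset_closure (by simp)) τ) (hle hfS)

end Pool.Agent.Helper25.HTwo
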