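import Mathlib

set_option autoImplicit false

/-!
# Closure properties of regular languages, and rational subsets of groups
-/

namespace Pool.Agent.Helper25.HTwo

/-- the star of a finite language is regular -/
theorem regular_kstar {α : Type} (F : Language α) (hF : Set.Finite {w | w ∈ F}) :
    (KStar.kstar F).IsRegular := by
  classical
  rw [Language.isRegular_iff_finite_range_leftQuotient]
  set L : Language α := KStar.kstar F with hL
  have hmul : ∀ a ∈ L, ∀ b ∈ L, a ++ b ∈ L := by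
    intro a ha b hb
    rw [hL, Language.mem_kstar] at ha hb ⊢
    obtain ⟨La, rfl, h1⟩ := ha
    obtain ⟨Lb, rfl, h2⟩ := hb
    refine ⟨La ++ Lb, by simp, ?_⟩
    intro y hy
    rcases List.mem_append.1 hy with h | h
    · exact h1 y h
    · exact h2 y h
  have hone : ∀ a ∈ F, a ∈ L := by
    intro a ha
    rw [hL, Language.mem_kstar]
    exact ⟨[a], by simp, by simpa using ha⟩
  have hnil : [] ∈ L := Language.nil_mem_kstar F
  -- the finite set of possible remainders
  set T : Set (List α) := {s | s = [] ∨ ∃ w ∈ F, s ∈ w.tails} with hT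
  have hTf : T.Finite := by
    have : T ⊆ {[]} ∪ ⋃ w ∈ {w | w ∈ F}, {s | s ∈ w.tails} := by
      rintro s (h | ⟨w, hw, h⟩)
      · exact Or.inl h
      · right
        simp only [Set.mem_iUnion]
        exact ⟨w, hw, h⟩
    exact ((Set.finite_singleton _).union
      (hF.biUnion fun w _ => List.finite_toSet w.tails)).subset this
  have key : ∀ l : List (List α), (∀ y ∈ l, y ∈ F) → ∀ x y : List α, l.flatten = x ++ y →
      ∃ s z, s ∈ T ∧ x ++ s ∈ L ∧ z ∈ L ∧ y = s ++ z := by
    intro l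
    induction l with
    | nil =>
      intro _ x y h
      have h1 : x = [] ∧ y = [] := by
        have := congrArg List.length h
        simp only [List.flatten_nil, List.length_nil, List.length_append] at this
        exact ⟨List.eq_nil_of_length_eq_zero (by omega),
          List.eq_nil_of_length_eq_zero (by omega)⟩
      rw [h1.1, h1.2]
      exact ⟨[], [], Or.inl rfl, hnil, hnil, rfl⟩
    | cons f l ih =>
      intro hl x y h
      rw [List.flatten_cons] at h
      have hfF : f ∈ F := hl f (by simp)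
      rcases List.append_eq_append_iff.1 h with ⟨c, h1, h2⟩ | ⟨c, h1, h2⟩
      · -- x = f ++ c, l.flatten = c ++ y
        obtain ⟨s, z, hs, h3, h4, h5⟩ := ih (fun y hy => hl y (by simp [hy])) c y h2
        refine ⟨s, z, hs, ?_, h4, h5⟩
        rw [h1, List.append_assoc]
        exact hmul _ (hone f hfF) _ h3
      · -- f = x ++ c, y = c ++ l.flatten
        refine ⟨c, l.flatten, Or.inr ⟨f, hfF, ?_⟩, ?_, ?_, h2⟩
        · rw [List.mem_tails]; exact ⟨x, h1.symm⟩
        · rw [← h1]; exact hone f hfF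
        · rw [hL, Language.mem_kstar]
          exact ⟨l, rfl, fun y hy => hl y (by simp [hy])⟩
  have hfac : ∀ x : List α, L.leftQuotient x =
      {y | ∃ s ∈ {s | s ∈ T ∧ x ++ s ∈ L}, ∃ z ∈ L, y = s ++ z} := by
    intro x
    ext y
    constructor
    · intro hy
      have hy : x ++ y ∈ L := hy
      rw [hL, Language.mem_kstar] at hy
      obtain ⟨l, h1, h2⟩ := hy
      obtain ⟨s, z, hs, h3, h4, h5⟩ := key l h2 x y h1.symm
      exact ⟨s, ⟨hs, h3⟩, z, h4, h5⟩
    · rintro ⟨s, ⟨_, hs⟩, z, hz, rfl⟩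
      change x ++ (s ++ z) ∈ L
      rw [← List.append_assoc]
      exact hmul _ hs _ hz
  have hsub : Set.range L.leftQuotient ⊆
      (fun R : Set (List α) => ({y | ∃ s ∈ R, ∃ z ∈ L, y = s ++ z} : Language α)) '' (𝒫 T) := by
    rintro _ ⟨x, rfl⟩
    exact ⟨{s | s ∈ T ∧ x ++ s ∈ L}, fun s hs => hs.1, (hfac x).symm⟩
  exact (hTf.powerset.image _).subset hsub


/-- a finite language is regular -/
theorem regular_finite {α : Type} (F : Language α) (hF : Set.Finite {w | w ∈ F}) :
    F.IsRegular := by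
  rw [Language.isRegular_iff_finite_range_leftQuotient]
  set T : Set (List α) := ⋃ w ∈ {w | w ∈ F}, {s | s ∈ w.tails} with hT
  have hTf : T.Finite := hF.biUnion fun w _ => List.finite_toSet w.tails
  refine hTf.powerset.subset ?_
  rintro _ ⟨x, rfl⟩ y hy
  have hy : x ++ y ∈ F := hy
  rw [hT]
  simp only [Set.mem_iUnion]
  refine ⟨x ++ y, hy, ?_⟩
  change y ∈ (x ++ y).tails
  rw [List.mem_tails]
  exact ⟨x, rfl⟩

/-- the product of two regular languages is regular -/
theorem regular_mul {α : Type} {L₁ L₂ : Language α} (h₁ : L₁.IsRegular) (h₂ : L₂.IsRegular) :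
    (L₁ * L₂).IsRegular := by
  rw [Language.isRegular_iff_finite_range_leftQuotient] at h₁ h₂ ⊢
  have hfac : ∀ x : List α, (L₁ * L₂).leftQuotient x =
      {y | (∃ c v, c ∈ L₁.leftQuotient x ∧ v ∈ L₂ ∧ y = c ++ v) ∨
        ∃ Q ∈ {Q : Language α | ∃ a b, x = a ++ b ∧ a ∈ L₁ ∧ Q = L₂.leftQuotient b}, y ∈ Q} := by
    intro x
    ext y
    constructor
    · intro hy
      have hy : x ++ y ∈ L₁ * L₂ := hy
      rw [Language.mem_mul] at hy
      obtain ⟨u, hu, v, hv, huv⟩ := hy
      rcases List.append_eq_append_iff.1 huv with ⟨c, h1, h2⟩ | ⟨c, h1, h2⟩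
      · right
        refine ⟨_, ⟨u, c, h1, hu, rfl⟩, ?_⟩
        change c ++ y ∈ L₂
        rw [← h2]; exact hv
      · left
        refine ⟨c, v, ?_, hv, h2⟩
        change x ++ c ∈ L₁
        rw [← h1]; exact hu
    · rintro (⟨c, v, hc, hv, rfl⟩ | ⟨Q, ⟨a, b, hx, ha, rfl⟩, hy⟩)
      · change x ++ (c ++ v) ∈ L₁ * L₂
        rw [← List.append_assoc, Language.mem_mul]
        exact ⟨x ++ c, hc, v, hv, rfl⟩
      · change x ++ y ∈ L₁ * L₂
        rw [hx, List.append_assoc, Language.mem_mul]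
        exact ⟨a, ha, b ++ y, hy, rfl⟩
  have hsub : Set.range (L₁ * L₂).leftQuotient ⊆
      (fun p : Language α × Set (Language α) =>
        ({y | (∃ c v, c ∈ p.1 ∧ v ∈ L₂ ∧ y = c ++ v) ∨ ∃ Q ∈ p.2, y ∈ Q} : Language α)) ''
        (Set.range L₁.leftQuotient ×ˢ 𝒫 (Set.range L₂.leftQuotient)) := by
    rintro _ ⟨x, rfl⟩
    refine ⟨(L₁.leftQuotient x, {Q : Language α | ∃ a b, x = a ++ b ∧ a ∈ L₁ ∧
      Q = L₂.leftQuotient b}), ⟨⟨x, rfl⟩, ?_⟩, (hfac x).symm⟩
    rintro _ ⟨a, b, _, _, rfl⟩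
    exact ⟨b, rfl⟩
  exact ((h₁.prod h₂.powerset).image _).subset hsub

variable {G : Type} [Group G]

/-- The evaluation map: the product in `G` of the letters of a word over `X ⊆ G`. -/
def ev (X : Finset G) (w : List X) : G := (w.map fun x => (x : G)).prod

theorem ev_nil (X : Finset G) : ev X [] = 1 := rfl

theorem ev_cons (X : Finset G) (x : X) (w : List X) : ev X (x :: w) = (x : G) * ev X w := by
  simp [ev]

theorem ev_append (X : Finset G) (u v : List X) : ev X (u ++ v) = ev X u * ev X v := by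
  simp [ev]

/-- rational subsets over a fixed alphabet -/
def Rat (X : Finset G) (S : Set G) : Prop := ∃ L : Language X, L.IsRegular ∧ ev X '' L = S

theorem Rat.union {X : Finset G} {S T : Set G} (hS : Rat X S) (hT : Rat X T) :
    Rat X (S ∪ T) := by
  obtain ⟨L, h1, rfl⟩ := hS
  obtain ⟨K, h2, rfl⟩ := hT
  exact ⟨L + K, h1.add h2, Set.image_union (ev X) L K⟩

theorem Rat.mul {X : Finset G} {S T : Set G} (hS : Rat X S) (hT : Rat X T) :
    Rat X (Set.image2 (fun a b => a * b) S T) := by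
  obtain ⟨L, h1, rfl⟩ := hS
  obtain ⟨K, h2, rfl⟩ := hT
  refine ⟨L * K, regular_mul h1 h2, ?_⟩
  ext g
  constructor
  · rintro ⟨w, hw, rfl⟩
    have hw : w ∈ L * K := hw
    rw [Language.mem_mul] at hw
    obtain ⟨a, ha, b, hb, rfl⟩ := hw
    exact ⟨ev X a, ⟨a, ha, rfl⟩, ev X b, ⟨b, hb, rfl⟩, (ev_append X a b).symm⟩
  · rintro ⟨_, ⟨a, ha, rfl⟩, _, ⟨b, hb, rfl⟩, rfl⟩
    refine ⟨a ++ b, ?_, ev_append X a b⟩
    change a ++ b ∈ L * K
    rw [Language.mem_mul]
    exact ⟨a, ha, b, hb, rfl⟩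

theorem Rat.single {X : Finset G} {g : G} (hg : g ∈ X) : Rat X {g} := by
  refine ⟨{[⟨g, hg⟩]}, regular_finite _ (Set.finite_singleton _), ?_⟩
  change ev X '' {[⟨g, hg⟩]} = {g}
  rw [Set.image_singleton]
  simp [ev]

theorem Rat.closure {X : Finset G} {F : Set G} (hF : F ⊆ X) :
    Rat X (Submonoid.closure F : Set G) := by
  set A : Language X := {w | ∃ x : X, (x : G) ∈ F ∧ w = [x]} with hA
  have hAf : Set.Finite {w | w ∈ A} := by
    refine (Set.finite_range fun x : X => [x]).subset ?_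
    rintro _ ⟨x, _, rfl⟩
    exact ⟨x, rfl⟩
  refine ⟨KStar.kstar A, regular_kstar A hAf, ?_⟩
  have hflat : ∀ l : List (List X), (∀ y ∈ l, y ∈ A) → ev X l.flatten ∈ Submonoid.closure F := by
    intro l
    induction l with
    | nil => intro _; exact Submonoid.one_mem _
    | cons f l ih =>
      intro h1
      rw [List.flatten_cons, ev_append]
      apply Submonoid.mul_mem
      · obtain ⟨x, hx, hx2⟩ := h1 f (by simp)
        rw [hx2]
        simpa [ev] using Submonoid.subset_closure hx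
      · exact ih fun y hy => h1 y (by simp [hy])
  ext g
  constructor
  · rintro ⟨w, hw, rfl⟩
    have hw : w ∈ KStar.kstar A := hw
    rw [Language.mem_kstar] at hw
    obtain ⟨l, hl, h1⟩ := hw
    rw [hl]
    exact hflat l h1
  · intro hx0
    have hx : g ∈ Submonoid.closure F := hx0
    clear hx0
    induction hx using Submonoid.closure_induction with
    | mem x hx =>
      refine ⟨[⟨x, hF hx⟩], ?_, by simp [ev]⟩
      change _ ∈ KStar.kstar A
      rw [Language.mem_kstar]
      exact ⟨[[⟨x, hF hx⟩]], by simp, by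
        intro y hy
        rw [List.mem_singleton.1 hy]
        exact ⟨⟨x, hF hx⟩, hx, rfl⟩⟩
    | one => exact ⟨[], Language.nil_mem_kstar A, rfl⟩
    | mul x y _ _ h1 h2 =>
      obtain ⟨a, ha, rfl⟩ := h1
      obtain ⟨b, hb, rfl⟩ := h2
      refine ⟨a ++ b, ?_, ev_append X a b⟩
      have ha : a ∈ KStar.kstar A := ha
      have hb : b ∈ KStar.kstar A := hb
      change a ++ b ∈ KStar.kstar A
      rw [Language.mem_kstar] at ha hb ⊢
      obtain ⟨la, rfl, h1⟩ := ha
      obtain ⟨lb, rfl, h2⟩ := hb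
      refine ⟨la ++ lb, by simp, ?_⟩
      intro y hy
      rcases List.mem_append.1 hy with h | h
      · exact h1 y h
      · exact h2 y h

end Pool.Agent.Helper25.HTwo
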