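import Mathlib
import Pool.Agent.Helper25.HTwo.Lang
import Pool.Agent.Helper25.HTwo.Group

set_option autoImplicit false

/-!
# `H₂` has no rational cross section
-/

namespace Pool.Agent.Helper25.HTwo

open Equiv

/-- the points that cross `c` -/
def E (g : H2) (c : ℤ) : Set ℤ := {n | n + tau g < c ∧ c ≤ g.1 n}

theorem E_sub (g : H2) (c : ℤ) : E g c ⊆ {n | g.1 n ≠ n + tau g} := by
  rintro n ⟨h1, h2⟩ h3
  rw [h3] at h2
  omega

theorem E_finite (g : H2) (c : ℤ) : (E g c).Finite := (tau_spec g).subset (E_sub g c)

theorem E_mul (g h : H2) (c : ℤ) :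
    (E (g * h) c).ncard ≤ (E g c).ncard + (E h (c - tau g)).ncard := by
  have hsub : E (g * h) c ⊆ (h.1.symm '' E g c) ∪ E h (c - tau g) := by
    rintro n ⟨h1, h2⟩
    rw [tau_mul] at h1
    have h2 : c ≤ g.1 (h.1 n) := h2
    by_cases h3 : h.1 n + tau g < c
    · left
      exact ⟨h.1 n, ⟨h3, h2⟩, by simp⟩
    · right
      constructor
      · omega
      · omega
  refine (Set.ncard_le_ncard hsub (((E_finite g c).image _).union (E_finite _ _))).trans ?_
  refine (Set.ncard_union_le _ _).trans ?_
  exact Nat.add_le_add_right (Set.ncard_image_le (E_finite g c)) _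

/-- the finitely many heights where an element acts non-trivially -/
theorem E_support (X : Finset H2) : ∃ C : Finset ℤ, ∀ x ∈ X, ∀ c, c ∉ C → (E x c).ncard = 0 := by
  classical
  have h1 : ∀ g : H2, {c | (E g c).Nonempty}.Finite := by
    intro g
    have h2 : {c | (E g c).Nonempty} ⊆
        ⋃ n ∈ {n : ℤ | g.1 n ≠ n + tau g}, Set.Icc (n + tau g) (g.1 n) := by
      rintro c ⟨n, hn⟩
      simp only [Set.mem_iUnion]
      exact ⟨n, E_sub g c hn, hn.1.le, hn.2⟩
    exact ((tau_spec g).biUnion fun n _ => Set.finite_Icc _ _).subset h2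
  refine ⟨X.biUnion fun g => (h1 g).toFinset, ?_⟩
  intro x hx c hc
  rw [Set.ncard_eq_zero (E_finite x c)]
  by_contra h
  apply hc
  rw [Finset.mem_biUnion]
  refine ⟨x, hx, ?_⟩
  rw [Set.Finite.mem_toFinset]
  exact Set.nonempty_iff_ne_empty.2 h

theorem E_bound (X : Finset H2) : ∃ B : ℕ, ∀ x ∈ X, ∀ c, (E x c).ncard ≤ B := by
  classical
  refine ⟨X.sup fun g => ({n : ℤ | g.1 n ≠ n + tau g}).ncard, ?_⟩
  intro x hx c
  exact (Set.ncard_le_ncard (E_sub x c) (tau_spec x)).trans
    (Finset.le_sup (f := fun g : H2 => ({n : ℤ | g.1 n ≠ n + tau g}).ncard) hx)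

theorem E_word (X : Finset H2) (C : Finset ℤ) (B : ℕ)
    (hC : ∀ x ∈ X, ∀ c, c ∉ C → (E x c).ncard = 0) (hB : ∀ x ∈ X, ∀ c, (E x c).ncard ≤ B)
    (c : ℤ) (w : List X) :
    (E (ev X w) c).ncard ≤
      B * ((Finset.range w.length).filter fun i => c - tau (ev X (w.take i)) ∈ C).card := by
  induction w using List.reverseRecOn with
  | nil =>
    rw [ev_nil]
    have : E (1 : H2) c = ∅ := by
      ext n
      simp only [Set.mem_empty_iff_false, iff_false]
      rintro ⟨h1, h2⟩
      rw [tau_one] at h1
      have h2 : c ≤ n := h2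
      omega
    rw [this]
    simp
  | append_singleton w x ih =>
    have h0 : ev X (w ++ [x]) = ev X w * x := by
      rw [ev_append]; simp [ev]
    rw [h0]
    refine (E_mul _ _ _).trans ?_
    have h1 : ((Finset.range w.length).filter
        fun i => c - tau (ev X ((w ++ [x]).take i)) ∈ C) =
        ((Finset.range w.length).filter fun i => c - tau (ev X (w.take i)) ∈ C) := by
      apply Finset.filter_congr
      intro i hi
      rw [List.take_append_of_le_length (Finset.mem_range.1 hi).le]
    rw [List.length_append, List.length_singleton, Finset.range_add_one, Finset.filter_insert,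
      List.take_left, h1]
    by_cases hc : c - tau (ev X w) ∈ C
    · rw [if_pos hc, Finset.card_insert_of_notMem (by simp), Nat.mul_add, mul_one]
      exact Nat.add_le_add ih (hB x x.2 _)
    · rw [if_neg hc, hC x x.2 _ hc, add_zero]
      exact ih

theorem evalFrom_replicate {α σ : Type} (M : DFA α σ) (q : σ) (v : List α)
    (h : M.evalFrom q v = q) (r : ℕ) : M.evalFrom q (List.replicate r v).flatten = q := by
  induction r with
  | zero => simp
  | succ r ih => rw [List.replicate_succ, List.flatten_cons, DFA.evalFrom_of_append, h, ih]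

theorem ev_replicate {G : Type} [Group G] (X : Finset G) (v : List X) (r : ℕ) :
    ev X (List.replicate r v).flatten = (ev X v) ^ r := by
  induction r with
  | zero => rw [pow_zero]; rfl
  | succ r ih => rw [List.replicate_succ, List.flatten_cons, ev_append, ih, pow_succ']

/-- no state is visited twice at the same height -/
theorem visits {X : Finset H2} {σ : Type} (M : DFA X σ)
    (hinj : Set.InjOn (ev X) {w | w ∈ M.accepts}) {w : List X} (hw : w ∈ M.accepts)
    {i j : ℕ} (hij : i < j) (hj : j ≤ w.length) (hq : M.eval (w.take i) = M.eval (w.take j))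
    (ht : tau (ev X (w.take i)) = tau (ev X (w.take j))) : False := by
  set u := w.take i with hu
  set v := (w.take j).drop i with hv
  set z := w.drop j with hz
  have e1 : w.take j = u ++ v := by
    have h1 : w.take i = (w.take j).take i := by
      rw [List.take_take, min_eq_left hij.le]
    rw [hu, hv, h1, List.take_append_drop]
  have e2 : w = u ++ v ++ z := by
    rw [← e1, hz, List.take_append_drop]
  have hvl : 0 < v.length := by
    rw [hv, List.length_drop, List.length_take]
    omega
  have hloop : M.evalFrom (M.eval u) v = M.eval u := by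
    have : M.eval (u ++ v) = M.evalFrom (M.eval u) v := by
      simp [DFA.eval, DFA.evalFrom_of_append]
    rw [← this, ← e1, ← hq]
  have htv : tau (ev X v) = 0 := by
    rw [e1, ev_append, tau_mul] at ht
    omega
  obtain ⟨r, hr, hr2⟩ := finite_order htv
  have hacc : u ++ (List.replicate (r + 1) v).flatten ++ z ∈ M.accepts := by
    rw [DFA.mem_accepts] at hw ⊢
    rw [e2] at hw
    have h1 : M.eval (u ++ (List.replicate (r + 1) v).flatten ++ z) = M.eval (u ++ v ++ z) := by
      simp only [DFA.eval, DFA.evalFrom_of_append]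
      have h2 : M.evalFrom M.start u = M.eval u := rfl
      rw [h2, hloop, evalFrom_replicate M _ v hloop]
    rw [h1]
    exact hw
  have hev : ev X (u ++ (List.replicate (r + 1) v).flatten ++ z) = ev X w := by
    conv_rhs => rw [e2]
    rw [ev_append, ev_append, ev_append, ev_append, ev_replicate, pow_succ, hr2, one_mul]
  have := hinj hacc hw hev
  have hlen := congrArg List.length this
  conv_rhs at hlen => rw [e2]
  simp only [List.length_append, List.length_flatten, List.map_replicate, List.sum_replicate,
    smul_eq_mul] at hlen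
  have h3 : (r + 1) * v.length = r * v.length + v.length := by ring
  have h4 : 0 < r * v.length := Nat.mul_pos hr hvl
  omega

/-- interchange of two blocks of length `k` -/
def blk (k : ℤ) (n : ℤ) : ℤ :=
  if -k ≤ n ∧ n < 0 then n + k else if 0 ≤ n ∧ n < k then n - k else n

theorem blk_inv (k : ℤ) : Function.Involutive (blk k) := by
  intro n
  unfold blk
  split_ifs <;> omega

def Blk (k : ℤ) : H2 := ⟨(blk_inv k).toPerm, 0, by
  refine (Set.finite_Ico (-k) k).subset ?_
  intro n hn
  by_contra h
  apply hn
  rw [Set.mem_Ico, not_and_or] at h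
  change blk k n = n + 0
  unfold blk
  split_ifs <;> omega⟩

theorem Blk_tau (k : ℤ) : tau (Blk k) = 0 := by
  apply tau_eq
  refine (Set.finite_Ico (-k) k).subset ?_
  intro n hn
  by_contra h
  apply hn
  rw [Set.mem_Ico, not_and_or] at h
  change blk k n = n + 0
  unfold blk
  split_ifs <;> omega

theorem Blk_E (k : ℕ) : k ≤ (E (Blk k) 0).ncard := by
  have h1 : Set.Ico (-(k : ℤ)) 0 ⊆ E (Blk k) 0 := by
    intro n hn
    rw [Set.mem_Ico] at hn
    constructor
    · rw [Blk_tau]; omega
    · change 0 ≤ blk k n
      unfold blk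
      split_ifs <;> omega
  have h2 := Set.ncard_le_ncard h1 (E_finite _ _)
  have h3 : (Set.Ico (-(k : ℤ)) 0).ncard = k := by
    rw [← Finset.coe_Ico, Set.ncard_coe_finset, Int.card_Ico]
    simp
  rwa [h3] at h2

theorem no_cross (X : Finset H2) (L : Language X) (hL : L.IsRegular)
    (hinj : Set.InjOn (ev X) {w | w ∈ L}) (hsurj : ∀ g : H2, ∃ w ∈ L, ev X w = g) : False := by
  classical
  obtain ⟨σ, hσ, M, rfl⟩ := hL
  obtain ⟨C, hC⟩ := E_support X
  obtain ⟨B, hB⟩ := E_bound X
  obtain ⟨w, hw, hwe⟩ := hsurj (Blk ((B * (Fintype.card σ * C.card) + 1 : ℕ) : ℤ))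
  have h1 := E_word X C B hC hB 0 w
  have h2 : ((Finset.range w.length).filter fun i => 0 - tau (ev X (w.take i)) ∈ C).card ≤
      ((Finset.univ : Finset σ) ×ˢ C).card := by
    refine Finset.card_le_card_of_injOn
      (fun i => (M.eval (w.take i), 0 - tau (ev X (w.take i)))) ?_ ?_
    · intro i hi
      rw [Finset.mem_coe, Finset.mem_filter] at hi
      rw [Finset.mem_coe, Finset.mem_product]
      exact ⟨Finset.mem_univ _, hi.2⟩
    · intro i hi j hj hij
      rw [Finset.mem_coe, Finset.mem_filter, Finset.mem_range] at hi hj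
      simp only [Prod.mk.injEq] at hij
      rcases lt_trichotomy i j with h | h | h
      · exact (visits M hinj hw h hj.1.le hij.1 (by omega)).elim
      · exact h
      · exact (visits M hinj hw h hi.1.le hij.1.symm (by omega)).elim
  rw [Finset.card_product, Finset.card_univ] at h2
  have h3 := Blk_E (B * (Fintype.card σ * C.card) + 1)
  rw [← hwe] at h3
  have h4 := h3.trans (h1.trans (Nat.mul_le_mul_left B h2))
  omega

end Pool.Agent.Helper25.HTwo
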