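import Mathlib
import Pool.Agent.Helper25.HTwo.Lang
import Pool.Agent.Helper25.HTwo.Group

set_option autoImplicit false

/-!
# The nontrivial elements of `H₂` form a rational subset
-/

namespace Pool.Agent.Helper25.HTwo

open Equiv

/-- the translation by one -/
def t0 : Equiv.Perm ℤ := Equiv.addRight 1

/-- the translation of `ℤ ∖ {0}` -/
def t1 : Equiv.Perm ℤ := t0 * swap (-1) 0

/-- the translation of `ℤ ∖ {0, 1}` -/
def t2 : Equiv.Perm ℤ := t1 * swap (-1) 1

theorem t0_apply (n : ℤ) : t0 n = n + 1 := rfl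

theorem t1_apply (n : ℤ) : t1 n = if n = -1 then 1 else if n = 0 then 0 else n + 1 := by
  rw [t1, Equiv.Perm.mul_apply, t0_apply, Equiv.swap_apply_def]
  split_ifs <;> omega

theorem t2_apply (n : ℤ) :
    t2 n = if n = -1 then 2 else if n = 0 then 0 else if n = 1 then 1 else n + 1 := by
  rw [t2, Equiv.Perm.mul_apply]
  by_cases h1 : n = -1
  · subst h1
    rw [Equiv.swap_apply_left, t1_apply]; simp
  · by_cases h2 : n = 1
    · subst h2
      rw [Equiv.swap_apply_right, t1_apply]; simp
    · rw [Equiv.swap_apply_of_ne_of_ne h1 h2, t1_apply, if_neg h1, if_neg h1]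
      split_ifs <;> first | rfl | omega

theorem t0_mem : t0 ∈ H2 := ⟨1, by simp [t0_apply]⟩

theorem swap_mem (a b : ℤ) : swap a b ∈ H2 := by
  refine ⟨0, (Set.toFinite ({a, b} : Set ℤ)).subset ?_⟩
  intro n hn
  by_contra h
  simp only [Set.mem_insert_iff, Set.mem_singleton_iff, not_or] at h
  apply hn
  rw [add_zero]
  exact Equiv.swap_apply_of_ne_of_ne h.1 h.2

/-- the elements of the group -/
def T0 : H2 := ⟨t0, t0_mem⟩
def T1 : H2 := ⟨t1, H2.mul_mem t0_mem (swap_mem _ _)⟩
def T2 : H2 := ⟨t2, H2.mul_mem (H2.mul_mem t0_mem (swap_mem _ _)) (swap_mem _ _)⟩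
def S0 : H2 := ⟨swap 0 1, swap_mem _ _⟩
def S2 : H2 := ⟨swap 2 3, swap_mem _ _⟩

theorem t0_zpow (k n : ℤ) : (t0 ^ k) n = n + k := by
  induction k using Int.induction_on generalizing n with
  | zero => simp
  | succ k ih =>
    rw [zpow_add_one, Equiv.Perm.mul_apply, t0_apply, ih]; ring
  | pred k ih =>
    rw [zpow_sub_one, Equiv.Perm.mul_apply, ih]
    have : t0⁻¹ n = n - 1 := rfl
    rw [this]; ring

theorem t1_pow_one (k : ℕ) : (t1 ^ k) 1 = 1 + k := by
  induction k with
  | zero => simp
  | succ k ih =>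
    rw [pow_succ', Equiv.Perm.mul_apply, ih, t1_apply]
    push_cast
    split_ifs <;> omega

theorem t1_inv_apply (n : ℤ) :
    t1⁻¹ n = if n = 1 then -1 else if n = 0 then 0 else n - 1 := by
  rw [Equiv.Perm.inv_eq_iff_eq]
  by_cases h1 : n = 1
  · subst h1; rw [if_pos rfl, t1_apply]; simp
  · by_cases h2 : n = 0
    · subst h2; rw [if_neg h1, if_pos rfl, t1_apply]; simp
    · rw [if_neg h1, if_neg h2, t1_apply]
      split_ifs <;> omega

theorem t1_inv_pow_one (k : ℕ) : (t1⁻¹ ^ (k + 1)) 1 = -1 - k := by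
  induction k with
  | zero => simp [t1_inv_apply]
  | succ k ih =>
    rw [pow_succ', Equiv.Perm.mul_apply, ih, t1_inv_apply]
    push_cast
    split_ifs <;> omega

theorem t2_pow_two (k : ℕ) : (t2 ^ k) 2 = 2 + k := by
  induction k with
  | zero => simp
  | succ k ih =>
    rw [pow_succ', Equiv.Perm.mul_apply, ih, t2_apply]
    push_cast
    split_ifs <;> omega

theorem t2_inv_apply (n : ℤ) :
    t2⁻¹ n = if n = 2 then -1 else if n = 0 then 0 else if n = 1 then 1 else n - 1 := by
  rw [Equiv.Perm.inv_eq_iff_eq]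
  by_cases h1 : n = 2
  · subst h1; rw [if_pos rfl, t2_apply]; simp
  · by_cases h2 : n = 0
    · subst h2; rw [if_neg h1, if_pos rfl, t2_apply]; simp
    · by_cases h3 : n = 1
      · subst h3; rw [if_neg h1, if_neg h2, if_pos rfl, t2_apply]; simp
      · rw [if_neg h1, if_neg h2, if_neg h3, t2_apply]
        split_ifs <;> omega

theorem t2_inv_pow_two (k : ℕ) : (t2⁻¹ ^ (k + 1)) 2 = -1 - k := by
  induction k with
  | zero => simp [t2_inv_apply]
  | succ k ih =>
    rw [pow_succ', Equiv.Perm.mul_apply, ih, t2_inv_apply]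
    push_cast
    split_ifs <;> omega

theorem t1_pow_zero (k : ℕ) : (t1 ^ k) 0 = 0 := by
  induction k with
  | zero => simp
  | succ k ih => rw [pow_succ', Equiv.Perm.mul_apply, ih, t1_apply]; simp

theorem t1_inv_pow_zero (k : ℕ) : (t1⁻¹ ^ k) 0 = 0 := by
  induction k with
  | zero => simp
  | succ k ih => rw [pow_succ', Equiv.Perm.mul_apply, ih, t1_inv_apply]; simp

/-- from the closure of permutations to the closure in the subgroup -/
theorem closure_lift (u s : H2) (hs : s⁻¹ = s) (x : H2)
    (h : x.1 ∈ Subgroup.closure ({u.1, s.1} : Set (Equiv.Perm ℤ))) :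
    x ∈ Submonoid.closure ({u, u⁻¹, s} : Set H2) := by
  have h1 : ({u.1, s.1} : Set (Equiv.Perm ℤ)) = H2.subtype '' {u, s} := by
    rw [Set.image_pair]; rfl
  rw [h1, ← MonoidHom.map_closure] at h
  obtain ⟨y, hy, hyx⟩ := h
  have hy' : y = x := Subtype.ext hyx
  subst hy'
  have hy : y ∈ (Subgroup.closure ({u, s} : Set H2)).toSubmonoid := hy
  rw [Subgroup.closure_toSubmonoid] at hy
  refine Submonoid.closure_mono ?_ hy
  intro z hz
  rcases hz with hz | hz
  · rcases hz with hz | hz
    · simp [hz]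
    · simp only [Set.mem_singleton_iff] at hz; simp [hz]
  · rw [Set.mem_inv] at hz
    rcases hz with hz | hz
    · have : z = u⁻¹ := by rw [← hz, inv_inv]
      simp [this]
    · simp only [Set.mem_singleton_iff] at hz
      have : z = s := by rw [← hs, ← hz, inv_inv]
      simp [this]

/-- `H₂` is generated by the translation and one transposition -/
theorem top_closure (x : H2) : x ∈ Submonoid.closure ({T0, T0⁻¹, S0} : Set H2) := by
  apply closure_lift
  · apply Subtype.ext; exact Equiv.swap_inv _ _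
  · have := gen_perm Set.univ t0 0 (by simp [t0_apply]) (by simp) (by simp [t0_apply])
      (fun z _ => ⟨z, by rw [t0_zpow]; ring⟩) x.1 x.2 (by simp)
    exact this

/-- the pointwise stabilizer of `{0, 1}` -/
theorem stab_closure (x : H2) (h0 : x.1 0 = 0) (h1 : x.1 1 = 1) :
    x ∈ Submonoid.closure ({T2, T2⁻¹, S2} : Set H2) := by
  apply closure_lift
  · apply Subtype.ext; exact Equiv.swap_inv _ _
  · have h3 : t2 2 = 3 := by rw [t2_apply]; simp
    have := gen_perm {z | z ≠ 0 ∧ z ≠ 1} t2 2
      ((Set.toFinite ({-1, 0, 1} : Set ℤ)).subset (by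
        intro n hn
        by_contra h
        simp only [Set.mem_insert_iff, Set.mem_singleton_iff, not_or] at h
        apply hn
        rw [t2_apply, if_neg h.1, if_neg h.2.1, if_neg h.2.2]))
      (by
        intro z hz
        have hz : ¬ (z ≠ 0 ∧ z ≠ 1) := hz
        rw [t2_apply]
        split_ifs <;> omega)
      (by rw [h3]; norm_num)
      (by
        rintro z ⟨hz0, hz1⟩
        by_cases hz : 2 ≤ z
        · refine ⟨((z - 2).toNat : ℤ), ?_⟩
          rw [zpow_natCast, t2_pow_two]
          omega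
        · refine ⟨-(((-1 - z).toNat + 1 : ℕ) : ℤ), ?_⟩
          rw [zpow_neg, zpow_natCast, ← inv_pow, t2_inv_pow_two]
          omega)
      x.1 x.2
      (by
        intro z hz
        have hz : ¬ (z ≠ 0 ∧ z ≠ 1) := hz
        by_cases h : z = 0
        · rw [h, h0]
        · have : z = 1 := by by_contra h'; exact hz ⟨h, h'⟩
          rw [this, h1])
    rw [h3] at this
    exact this

theorem stab_of_mem {x : H2} (h : x ∈ Submonoid.closure ({T2, T2⁻¹, S2} : Set H2)) :
    x.1 0 = 0 ∧ x.1 1 = 1 := by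
  induction h using Submonoid.closure_induction with
  | mem x hx =>
    rcases hx with hx | hx | hx
    · subst hx; constructor <;> · change t2 _ = _; rw [t2_apply]; simp
    · subst hx; constructor <;> · change t2⁻¹ _ = _; rw [t2_inv_apply]; simp
    · simp only [Set.mem_singleton_iff] at hx
      subst hx
      constructor <;> · change swap 2 3 _ = _; decide
  | one => exact ⟨rfl, rfl⟩
  | mul x y _ _ hx hy =>
    constructor
    · change x.1 (y.1 0) = 0; rw [hy.1, hx.1]
    · change x.1 (y.1 1) = 1; rw [hy.2, hx.2]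

theorem T0_closure (x : H2) (h : x ∈ Submonoid.closure ({T0, T0⁻¹} : Set H2)) :
    ∃ k : ℤ, x = T0 ^ k := by
  induction h using Submonoid.closure_induction with
  | mem x hx =>
    rcases hx with hx | hx
    · exact ⟨1, by rw [hx, zpow_one]⟩
    · simp only [Set.mem_singleton_iff] at hx
      exact ⟨-1, by rw [hx, zpow_neg_one]⟩
  | one => exact ⟨0, rfl⟩
  | mul x y _ _ hx hy =>
    obtain ⟨k, rfl⟩ := hx
    obtain ⟨l, rfl⟩ := hy
    exact ⟨k + l, (zpow_add _ _ _).symm⟩

theorem T0_zpow_mem (k : ℤ) : T0 ^ k ∈ Submonoid.closure ({T0, T0⁻¹} : Set H2) := by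
  have h1 : T0 ∈ Submonoid.closure ({T0, T0⁻¹} : Set H2) :=
    Submonoid.subset_closure (by simp)
  have h2 : T0⁻¹ ∈ Submonoid.closure ({T0, T0⁻¹} : Set H2) :=
    Submonoid.subset_closure (by simp)
  rcases Int.eq_nat_or_neg k with ⟨n, rfl | rfl⟩
  · rw [zpow_natCast]; exact Submonoid.pow_mem _ h1 n
  · rw [zpow_neg, zpow_natCast, ← inv_pow]; exact Submonoid.pow_mem _ h2 n

theorem T0_val (k n : ℤ) : (T0 ^ k).1 n = n + k := by
  rw [Subgroup.coe_zpow]
  exact t0_zpow k n

/-- the alphabet -/
noncomputable def alph : Finset H2 := by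
  classical
  exact {T0, T0⁻¹, S0, T1, T1⁻¹, T2, T2⁻¹, S2}

theorem alph_top : Submonoid.closure (alph : Set H2) = ⊤ := by
  rw [eq_top_iff]
  intro x _
  refine Submonoid.closure_mono ?_ (top_closure x)
  intro z hz
  simp only [Set.mem_insert_iff, Set.mem_singleton_iff] at hz
  rcases hz with h | h | h <;> simp [alph, h]

/-- the rational set of nontrivial elements -/
theorem rat_ne_one : Rat alph {g : H2 | g ≠ 1} := by
  have m0 : T0 ∈ alph := by simp [alph]
  have m0' : T0⁻¹ ∈ alph := by simp [alph]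
  have m1 : T1 ∈ alph := by simp [alph]
  have m1' : T1⁻¹ ∈ alph := by simp [alph]
  have m2 : T2 ∈ alph := by simp [alph]
  have m2' : T2⁻¹ ∈ alph := by simp [alph]
  have ms : S2 ∈ alph := by simp [alph]
  have rA : Rat alph (Submonoid.closure ({T0, T0⁻¹} : Set H2) : Set H2) :=
    Rat.closure (by
      intro z hz
      simp only [Set.mem_insert_iff, Set.mem_singleton_iff] at hz
      rcases hz with h | h <;> subst h <;> assumption)
  have rK : Rat alph (Submonoid.closure ({T2, T2⁻¹, S2} : Set H2) : Set H2) :=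
    Rat.closure (by
      intro z hz
      simp only [Set.mem_insert_iff, Set.mem_singleton_iff] at hz
      rcases hz with h | h | h <;> subst h <;> assumption)
  have rp : ∀ g : H2, g ∈ alph →
      Rat alph (Set.image2 (fun a b => a * b) {g} (Submonoid.closure ({g} : Set H2) : Set H2)) := by
    intro g hg
    exact (Rat.single hg).mul (Rat.closure (by simpa using hg))
  have hp : ∀ g x : H2, x ∈ Set.image2 (fun a b => a * b) {g}
      (Submonoid.closure ({g} : Set H2) : Set H2) ↔ ∃ k : ℕ, x = g ^ (k + 1) := by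
    intro g x
    constructor
    · rintro ⟨_, rfl, b, hb, rfl⟩
      obtain ⟨n, rfl⟩ := Submonoid.mem_closure_singleton.1 hb
      exact ⟨n, (pow_succ' _ _).symm⟩
    · rintro ⟨k, rfl⟩
      exact ⟨g, rfl, g ^ k, Submonoid.mem_closure_singleton.2 ⟨k, rfl⟩, (pow_succ' _ _).symm⟩
  have key := ((rA.mul (((rp T1 m1).union (rp T1⁻¹ m1')).mul rK)).mul rA).union
    ((rp T0 m0).union (rp T0⁻¹ m0'))
  convert key using 1
  ext g
  constructor
  · intro hg
    have hg : g ≠ 1 := hg
    by_cases hall : ∀ i : ℤ, g.1 (i + 1) = g.1 i + 1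
    · right
      have h1 : ∀ i : ℤ, g.1 i = i + g.1 0 := by
        intro i
        induction i using Int.induction_on with
        | zero => ring
        | succ i ih => rw [hall, ih]; ring
        | pred i ih =>
          have h2 := hall (-(i : ℤ) - 1)
          rw [show -(i : ℤ) - 1 + 1 = -(i : ℤ) by ring, ih] at h2
          omega
      have h2 : g = T0 ^ (g.1 0) := by
        apply Subtype.ext
        ext i
        rw [T0_val, h1]
      have h3 : g.1 0 ≠ 0 := by
        intro h4
        rw [h4, zpow_zero] at h2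
        exact hg h2
      rcases Int.eq_nat_or_neg (g.1 0) with ⟨n, hn | hn⟩
      · left
        rw [hp]
        refine ⟨n - 1, ?_⟩
        have : n ≠ 0 := by rintro rfl; exact h3 (by simpa using hn)
        rw [h2, hn, zpow_natCast]
        congr 1
        omega
      · right
        rw [hp]
        refine ⟨n - 1, ?_⟩
        have : n ≠ 0 := by rintro rfl; exact h3 (by simpa using hn)
        rw [h2, hn, zpow_neg, zpow_natCast, ← inv_pow]
        congr 1
        omega
    · left
      push Not at hall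
      obtain ⟨i, hi⟩ := hall
      set a := g.1 i with ha
      set x : H2 := T0 ^ (-a) * g * T0 ^ i with hx
      have hxv : ∀ n, x.1 n = g.1 (n + i) - a := by
        intro n
        rw [hx]
        change (T0 ^ (-a)).1 (g.1 ((T0 ^ i).1 n)) = _
        rw [T0_val, T0_val]; ring
      have hx0 : x.1 0 = 0 := by rw [hxv, zero_add, ← ha]; ring
      have hx1 : x.1 1 ≠ 1 := by
        rw [hxv, add_comm]
        omega
      have hx10 : x.1 1 ≠ 0 := by
        intro h
        rw [← hx0] at h
        have := x.1.injective h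
        omega
      have hg2 : g = T0 ^ a * x * T0 ^ (-i) := by
        rw [hx]
        group
      have hmem : x ∈ Set.image2 (fun a b => a * b)
          (Set.image2 (fun a b => a * b) {T1} (Submonoid.closure ({T1} : Set H2) : Set H2) ∪
            Set.image2 (fun a b => a * b) {T1⁻¹} (Submonoid.closure ({T1⁻¹} : Set H2) : Set H2))
          (Submonoid.closure ({T2, T2⁻¹, S2} : Set H2) : Set H2) := by
        by_cases hj : 2 ≤ x.1 1
        · set k := (x.1 1 - 2).toNat with hk
          refine ⟨T1 ^ (k + 1), Or.inl ((hp _ _).2 ⟨k, rfl⟩), (T1 ^ (k + 1))⁻¹ * x, ?_, by simp⟩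
          apply stab_closure
          · change (T1 ^ (k + 1)).1⁻¹ (x.1 0) = 0
            rw [hx0, Equiv.Perm.inv_eq_iff_eq, Subgroup.coe_pow]
            exact (t1_pow_zero _).symm
          · change (T1 ^ (k + 1)).1⁻¹ (x.1 1) = 1
            rw [Equiv.Perm.inv_eq_iff_eq, Subgroup.coe_pow]
            refine Eq.trans ?_ (t1_pow_one _).symm
            push_cast
            omega
        · set k := (-1 - x.1 1).toNat with hk
          refine ⟨T1⁻¹ ^ (k + 1), Or.inr ((hp _ _).2 ⟨k, rfl⟩), (T1⁻¹ ^ (k + 1))⁻¹ * x, ?_,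
            by simp⟩
          apply stab_closure
          · change (T1⁻¹ ^ (k + 1)).1⁻¹ (x.1 0) = 0
            rw [hx0, Equiv.Perm.inv_eq_iff_eq, Subgroup.coe_pow]
            exact (t1_inv_pow_zero _).symm
          · change (T1⁻¹ ^ (k + 1)).1⁻¹ (x.1 1) = 1
            rw [Equiv.Perm.inv_eq_iff_eq, Subgroup.coe_pow]
            refine Eq.trans ?_ (t1_inv_pow_one _).symm
            omega
      exact ⟨T0 ^ a * x, ⟨T0 ^ a, T0_zpow_mem a, x, hmem, rfl⟩, T0 ^ (-i), T0_zpow_mem _,
        hg2.symm⟩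
  · rintro (⟨_, ⟨a, ha, _, ⟨y, hy, c, hc, rfl⟩, rfl⟩, b, hb, rfl⟩ | h)
    · intro h1
      obtain ⟨i, rfl⟩ := T0_closure a ha
      obtain ⟨j, rfl⟩ := T0_closure b hb
      have h1 : T0 ^ i * (y * c) * T0 ^ j = 1 := h1
      have h2 : y * c = T0 ^ (-i - j) := by
        have : y * c = (T0 ^ i)⁻¹ * (T0 ^ i * (y * c) * T0 ^ j) * (T0 ^ j)⁻¹ := by group
        rw [this, h1, mul_one, ← zpow_neg, ← zpow_neg, ← zpow_add]
        congr 1
      obtain ⟨hc0, hc1⟩ := stab_of_mem hc
      have e0 : (y * c).1 0 = y.1 0 := by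
        change y.1 (c.1 0) = _; rw [hc0]
      have e1 : (y * c).1 1 = y.1 1 := by
        change y.1 (c.1 1) = _; rw [hc1]
      rw [h2, T0_val] at e0 e1
      rcases hy with hy | hy
      · obtain ⟨k, rfl⟩ := (hp _ _).1 hy
        have f0 : (T1 ^ (k + 1)).1 0 = 0 := by rw [Subgroup.coe_pow]; exact t1_pow_zero _
        have f1 : (T1 ^ (k + 1)).1 1 = 1 + ((k + 1 : ℕ) : ℤ) := by
          rw [Subgroup.coe_pow]; exact t1_pow_one _
        rw [f0] at e0
        rw [f1] at e1
        push_cast at e1
        omega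
      · obtain ⟨k, rfl⟩ := (hp _ _).1 hy
        have f0 : (T1⁻¹ ^ (k + 1)).1 0 = 0 := by rw [Subgroup.coe_pow]; exact t1_inv_pow_zero _
        have f1 : (T1⁻¹ ^ (k + 1)).1 1 = -1 - (k : ℤ) := by
          rw [Subgroup.coe_pow]; exact t1_inv_pow_one _
        rw [f0] at e0
        rw [f1] at e1
        omega
    · intro h1
      have h1 : g = 1 := h1
      have hk : ∀ k : ℤ, T0 ^ k = 1 → k = 0 := by
        intro k h2
        have := T0_val k 0
        rw [h2] at this
        change (0 : ℤ) = 0 + k at this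
        omega
      rcases h with h | h
      · obtain ⟨k, hk2⟩ := (hp _ _).1 h
        rw [h1] at hk2
        have := hk ((k + 1 : ℕ) : ℤ) (by rw [zpow_natCast]; exact hk2.symm)
        omega
      · obtain ⟨k, hk2⟩ := (hp _ _).1 h
        rw [h1] at hk2
        have := hk (-((k + 1 : ℕ) : ℤ)) (by rw [zpow_neg, zpow_natCast, ← inv_pow]; exact hk2.symm)
        omega

end Pool.Agent.Helper25.HTwo
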